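import Pool.Agent.H24.DRc

set_option autoImplicit false

namespace Pool.Agent.Results.MP_145108_al.RightNotLeft

/-- There is a ring `A` (associative with `1`) that is integral over its center, whose lattice of
right ideals (submodules of `A` as a right module over itself, i.e. as a module over the opposite
ring) is distributive, and whose lattice of left ideals is not distributive. -/
theorem result : ∃ (A : Type) (_ : Ring A),
    (∀ a : A, IsIntegral (Subring.center A) a) ∧
    (∀ I J L : Submodule Aᵐᵒᵖ A, I ⊓ (J ⊔ L) = (I ⊓ J) ⊔ (I ⊓ L)) ∧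
    ¬ (∀ I J L : Submodule A A, I ⊓ (J ⊔ L) = (I ⊓ J) ⊔ (I ⊓ L)) :=
  Pool.Agent.H24.DR.main

end Pool.Agent.Results.MP_145108_al.RightNotLeft
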